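import Pool.Agent.N721.SR.Exp3

/-!
# The girth conjecture: expander form

The girth conjecture for the parameter `k` (there are graphs on `n` vertices of girth greater than
`2 k` with at least `c n ^ (1 + 1 / k)` edges, for all large `n`) holds if and only if it holds
with almost regular expanders: there is `C` such that for every `d` there is a graph of girth
greater than `2 k` with at most `C d ^ k` vertices and all degrees between `d` and `C d` such that
at least `d |X|` edges leave every set `X` of at most half of the vertices, and such that the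
Laplacian has spectral gap at least `d / C`.

Proof. At a well chosen scale `m` the extremal number of `m` is, up to a factor `1 + 1 / (8 k)`,
as large as the extremal numbers of all `m' ∈ [m / 4, m]`, relative to `m' ^ (1 + 1 / k)`. So an
extremal graph on `m` vertices has many edges between `X` and its complement for every `X` with
`m / 4 ≤ |X| ≤ 3 m / 4`. Delete the few vertices of large degree, and a maximal set `Z` with few
edges to its complement; then sets of every size expand. The spectral gap follows from the
inequality of Cheeger.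
-/

set_option autoImplicit false

namespace Pool.Agent.Results.MP_97687e_co.ExpanderForm

open Finset Pool.Agent.N721.SR

theorem result :
    ∀ k : ℕ, 1 ≤ k →
      ((∃ c : ℝ, 0 < c ∧ ∃ N : ℕ, ∀ n ≥ N, ∃ G : SimpleGraph (Fin n),
          ((2 * k : ℕ) : ℕ∞) < G.egirth ∧
          c * (n : ℝ) ^ (1 + 1 / (k : ℝ)) ≤ (G.edgeSet.ncard : ℝ)) ↔
        ∃ C : ℝ, ∀ d : ℕ, 1 ≤ d → ∃ (m : ℕ) (G : SimpleGraph (Fin m)) (_ : DecidableRel G.Adj),
          0 < m ∧ (m : ℝ) ≤ C * (d : ℝ) ^ k ∧ ((2 * k : ℕ) : ℕ∞) < G.egirth ∧
          (∀ x, d ≤ G.degree x ∧ (G.degree x : ℝ) ≤ C * d) ∧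
          -- edge expansion
          (∀ X : Finset (Fin m), 2 * #X ≤ m →
            d * #X ≤ #((X ×ˢ Xᶜ).filter fun p => G.Adj p.1 p.2)) ∧
          -- spectral gap
          ∀ f : Fin m → ℝ, ∑ x, f x = 0 →
            d * ∑ x, f x ^ 2 ≤ C * ∑ x, ∑ y, G.adjMatrix ℝ x y * (f x - f y) ^ 2) :=
  fun _ hk => girthConj_iff_expanderForm hk

end Pool.Agent.Results.MP_97687e_co.ExpanderForm
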