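import Pool.Agent.N897.FO.Main
import Pool.Agent.TH669.AD.Girth
import Pool.Agent.Results.MP_97687e_co.AlmostAllOrders

/-!
# Erdős' girth conjecture and groups: few exceptional orders

Graphs on `n` vertices with `c n ^ (1 + 1 / k)` edges and no cycle of length at most `2 k` should exist by the conjecture; the
known ones (`k = 2, 3, 5`) have many automorphisms. The starting theorem `AlmostAllOrders` shows that such graphs have no
group of automorphisms with all orbits of length `m`, for almost all `m`. Here the number of the exceptional orders is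
bounded: let `k ≥ 3`, `c > 0` and `κ ≥ 0` with `(1 + κ) (1 - ⌊k / 3⌋ / k) < 1` (for example `κ < 1 / 4`, any `k`). For all
`m ≤ x` but at most `K x exp (- c' √(log x))` NO graph with `n ≤ m ^ (1 + κ)` vertices, at least `c n ^ (1 + 1 / k)` edges and
no cycle of length at most `2 k` has a group of automorphisms, of any structure, of order at most `m exp (√(log m) / 8)`, with
all orbits on the vertices of length `m`; in particular it is no Cayley graph of a group of order `m` and no lift of a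
graph with `m ^ κ` vertices by such a group. The same holds for the orders `F (m)` where `F` is a composition of additive
functions (or of similar functions), for all `m ≤ x` but `K x exp (- c' (log x) ^ (1 / (j + 2)))`, `j` the number of the
functions. For a fixed `ε` the general inequalities of the starting theorem hold with loss `m ^ ε` with the same number of
exceptions.

Proof. As for the starting theorem it is sufficient to count the `m ≤ x` which are divisible by the square of a prime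
`p > y`, or by `p d` with `d > 1`, `d ≡ 1` modulo `p` (up to small factors), or with a `y`-smooth part larger than `m ^ ε`.
There we use `y = exp √(log x)` and Rankin's method for the smooth part. The preimages under functions dominated by the
largest prime factor of thin sets are thin (`Pool/Agent/N375/AV`, helper375).
-/

set_option autoImplicit false

namespace Pool.Agent.Results.MP_97687e_co.FewExceptionalOrders

open Pool.Agent.N897.FO (S orders values large_pow)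
open Pool.Agent.N375.AV (PD comp pd_additive pd_largest pd_kempner)
open Pool.Agent.TH669.AD (GoodDeg edges_part)
open Pool.Agent.Results.MP_97687e_co.AlmostAllOrders (Bound)

/-- no graph with `n ≤ m ^ (1 + κ)` vertices, at least `c n ^ (1 + 1 / k)` edges and no cycle of length at most `2 k` has a
group of automorphisms of order at most `S m * m` all orbits of which have `m` elements -/
def NoDenseGraph (k : ℕ) (c κ : ℝ) (m : ℕ) : Prop :=
  ∀ (V : Type) [Fintype V] [Nonempty V] (X : SimpleGraph V) (G : Type) [Group G] [Finite G]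
    [MulAction G V], Nat.card G ≤ S m * m → (∀ v : V, (MulAction.orbit G v).ncard = m) →
    (∀ (a : G) (u v : V), X.Adj u v → X.Adj (a • u) (a • v)) →
    (Fintype.card V : ℝ) ≤ (m : ℝ) ^ (1 + κ) →
    (∀ (v : V) (w : X.Walk v v), w.IsCycle → 2 * k < w.length) →
    (X.edgeSet.ncard : ℝ) < c * (Fintype.card V : ℝ) ^ (1 + 1 / (k : ℝ))

lemma bound_of_good {ε : ℝ} {m y : ℕ} (h0 : 0 < m) (h1 : S m ≤ y) (h2 : (2 : ℝ) ≤ (m : ℝ) ^ ε)
    (h3 : GoodDeg y (S m) ((m : ℝ) ^ ε) m) : Bound m (S m) ((m : ℝ) ^ ε) := by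
  intro V _ _ X G _ _ _ hG horb haut k hk hgirth R hR
  exact edges_part h2 h1 h3 h0 V X G horb hG haut k hk hgirth R hR

/-- the conclusion for large `m` -/
lemma noDenseGraph {k : ℕ} {c κ : ℝ} (hk : 3 ≤ k) (hc : 0 < c) (hκ : 0 ≤ κ)
    (hγκ : (1 + κ) * (1 - ((k / 3 : ℕ) : ℝ) / k) < 1) :
    ∃ ε : ℝ, 0 < ε ∧ ∃ M : ℕ, ∀ m y : ℕ, M ≤ m → 0 < m → S m ≤ y → (2 : ℝ) ≤ (m : ℝ) ^ ε →
      GoodDeg y (S m) ((m : ℝ) ^ ε) m → NoDenseGraph k c κ m := by
  obtain ⟨e, he⟩ : ∃ e : ℝ, e = (1 + κ) * (1 - ((k / 3 : ℕ) : ℝ) / k) := ⟨_, rfl⟩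
  rw [← he] at hγκ
  have hk0 : (0 : ℝ) < k := by
    have : 0 < k := by omega
    exact_mod_cast this
  have ha : 0 ≤ 1 - ((k / 3 : ℕ) : ℝ) / k := by
    rw [sub_nonneg, div_le_one hk0]
    exact_mod_cast Nat.div_le_self k 3
  obtain ⟨ε, hε⟩ : ∃ ε : ℝ, ε = (1 - e) / 2 := ⟨_, rfl⟩
  have hε0 : 0 < ε := by rw [hε]; linarith
  obtain ⟨Q, hQ⟩ : ∃ Q : ℝ, Q = 4 ^ Nat.size (k / 3) * (2 / c) ^ (k / 3) := ⟨_, rfl⟩
  obtain ⟨M, hM2, hM⟩ := large_pow hε0 Q
  refine ⟨ε, hε0, M, fun m y hm h0 h1 h2 h3 => ?_⟩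
  intro V _ _ X G _ _ _ hG horb haut hV hgirth
  by_contra hcon
  have hcon' := not_lt.1 hcon
  obtain ⟨-, b3⟩ := bound_of_good h0 h1 h2 h3 V X G hG horb haut k (by omega) hgirth (k / 3) (by omega)
  have b4 := b3 c hc hcon'
  have hm1 : (1 : ℝ) ≤ m := by exact_mod_cast h0
  have hm0 : (0 : ℝ) < m := by linarith
  have hV0 : 0 < Fintype.card V := Fintype.card_pos
  have hVp : (0 : ℝ) < Fintype.card V := by exact_mod_cast hV0
  have c6 : (Fintype.card V : ℝ) ^ (1 - ((k / 3 : ℕ) : ℝ) / k) ≤ (m : ℝ) ^ e := by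
    calc (Fintype.card V : ℝ) ^ (1 - ((k / 3 : ℕ) : ℝ) / k) ≤ ((m : ℝ) ^ (1 + κ)) ^ (1 - ((k / 3 : ℕ) : ℝ) / k) :=
          Real.rpow_le_rpow hVp.le hV ha
      _ = (m : ℝ) ^ e := by rw [← Real.rpow_mul hm0.le, he]
  have c7 : (m : ℝ) ≤ Q * (m : ℝ) ^ (ε + e) := by
    calc (m : ℝ) ≤ (m : ℝ) ^ ε * 4 ^ Nat.size (k / 3) * (2 / c) ^ (k / 3) *
          (Fintype.card V : ℝ) ^ (1 - ((k / 3 : ℕ) : ℝ) / k) := b4
      _ ≤ (m : ℝ) ^ ε * 4 ^ Nat.size (k / 3) * (2 / c) ^ (k / 3) * (m : ℝ) ^ e :=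
          mul_le_mul_of_nonneg_left c6 (by positivity)
      _ = Q * ((m : ℝ) ^ ε * (m : ℝ) ^ e) := by rw [hQ]; ring
      _ = Q * (m : ℝ) ^ (ε + e) := by rw [← Real.rpow_add hm0]
  have c8 : Q * (m : ℝ) ^ (ε + e) < m := by
    calc Q * (m : ℝ) ^ (ε + e) < (m : ℝ) ^ ε * (m : ℝ) ^ (ε + e) :=
          mul_lt_mul_of_pos_right (hM m hm) (by positivity)
      _ = m := by
          rw [← Real.rpow_add hm0]
          have : ε + (ε + e) = 1 := by rw [hε]; ring
          rw [this, Real.rpow_one]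
  linarith

/-- **Few exceptional orders.** (1) For `k ≥ 3`, `c > 0`, `(1 + κ) (1 - ⌊k / 3⌋ / k) < 1` all but `K x exp (- c' √(log x))` of the
`m ≤ x` are orders for which no graph with `n ≤ m ^ (1 + κ)` vertices, at least `c n ^ (1 + 1 / k)` edges and no cycle of
length at most `2 k` has a group of automorphisms with all orbits of length `m`. (2) The same for the numbers `F (m)`, `F` a
composition of functions dominated by the largest prime factor. (3) `κ < 1 / 4` is sufficient for every `k ≥ 3`. (4) The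
inequalities of the starting theorem with loss `m ^ ε`. (5) Examples of such functions. -/
theorem result :
    (∀ (k : ℕ) (c κ : ℝ), 3 ≤ k → 0 < c → 0 ≤ κ → (1 + κ) * (1 - ((k / 3 : ℕ) : ℝ) / k) < 1 →
      (∃ c' K : ℝ, 0 < c' ∧ ∀ x : ℕ, 1 ≤ x →
        ({m : ℕ | 1 ≤ m ∧ m ≤ x ∧ ¬ NoDenseGraph k c κ m}.ncard : ℝ) ≤ K * x * Real.exp (-(c' * √(Real.log x)))) ∧
      ∀ fs : List (ℕ → ℕ), (∀ f ∈ fs, PD f) → ∃ c' K : ℝ, 0 < c' ∧ ∀ x : ℕ, 1 ≤ x →
        ({m : ℕ | 1 ≤ m ∧ m ≤ x ∧ ¬ NoDenseGraph k c κ (comp fs m)}.ncard : ℝ) ≤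
          K * x * Real.exp (-(c' * Real.log x ^ (1 / ((fs.length : ℝ) + 2))))) ∧
    (∀ (k : ℕ) (κ : ℝ), 3 ≤ k → 0 ≤ κ → κ < 1 / 4 → (1 + κ) * (1 - ((k / 3 : ℕ) : ℝ) / k) < 1) ∧
    (∀ ε : ℝ, 0 < ε → ∃ c' K : ℝ, 0 < c' ∧ ∀ x : ℕ, 1 ≤ x →
      ({m : ℕ | 1 ≤ m ∧ m ≤ x ∧ ¬ Bound m (S m) ((m : ℝ) ^ ε)}.ncard : ℝ) ≤ K * x * Real.exp (-(c' * √(Real.log x)))) ∧
    (∀ f : ℕ → ℕ, (∀ a b : ℕ, Nat.Coprime a b → f (a * b) = f a + f b) →
      (∃ C : ℕ, ∀ q j : ℕ, q.Prime → 1 ≤ j → f (q ^ j) ≤ C * q ^ j) →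
      (∃ P : ℕ, ∀ p q : ℕ, p.Prime → q.Prime → P ≤ p → P ≤ q → f p = f q → p = q) → PD f) ∧
    (PD (fun n => n.primeFactors.sup id) ∧ PD (fun n => sInf {k : ℕ | n ∣ k.factorial})) := by
  refine ⟨fun k c κ hk hc hκ hγκ => ?_, fun k κ hk hκ hκ4 => ?_, fun ε hε => ?_, fun f a1 a2 a3 => pd_additive a1 a2 a3,
    ⟨pd_largest, pd_kempner⟩⟩
  · obtain ⟨ε, hε, M, h⟩ := noDenseGraph hk hc hκ hγκ
    exact ⟨orders hε M h, fun fs hfs => values hε M h fs hfs⟩
  · have hk0 : (0 : ℝ) < k := by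
      have : 0 < k := by omega
      exact_mod_cast this
    have h1 : (1 : ℝ) / 5 ≤ ((k / 3 : ℕ) : ℝ) / k := by
      rw [div_le_div_iff₀ (by norm_num) hk0]
      have : 1 * k ≤ (k / 3) * 5 := by omega
      exact_mod_cast this
    have h2 : 1 - ((k / 3 : ℕ) : ℝ) / k ≤ 4 / 5 := by linarith
    calc (1 + κ) * (1 - ((k / 3 : ℕ) : ℝ) / k) ≤ (1 + κ) * (4 / 5) := mul_le_mul_of_nonneg_left h2 (by linarith)
      _ < 1 := by linarith
  · exact orders hε 0 (fun m y _ h0 h1 h2 h3 => bound_of_good h0 h1 h2 h3)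

end Pool.Agent.Results.MP_97687e_co.FewExceptionalOrders
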