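import Pool.Agent.N472.MC.Fin

/-!
# The graphs of the girth conjecture have unbounded margin and communication complexity

The vertices `x` of a graph `G` are given two vectors `u x`, `v x` in the unit ball of a Hilbert
space of any dimension such that `⟨u x, v y⟩ ≥ a` if `x` and `y` are adjacent and `⟨u x, v y⟩ ≤ b`
if they are different and not adjacent (`-1 ≤ b < a ≤ 1`; for `a = 1/m`, `b = -1/m` the graph has
margin complexity at most `m`).

(1) If `G` has `n` vertices, girth greater than `2 k`, `k ≥ 2`, and at least `c n ^ (1 + 1/k)` edges,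
as asked for in the question, then `(a - b) ^ (2 k + 1) log n` is at most a constant which depends
on `k` and `c`. So the margin complexity of such graphs is at least of order
`(log n) ^ (1 / (2 k + 1))`.

(2) If the adjacency of two vertices of such a graph is decided with error `1/3` by a randomised
communication protocol with public coins which sends at most `c` bits, then
`log n ≤ C 2 ^ ((2 k + 1) c)`. So `c` is at least `(log₂ log n - O(1)) / (2 k + 1)`.

Proof. By the starting result RegularForm there is a set `U` which contains half of the edges, with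
degrees `O(n ^ (1 / k))`. As the girth is greater than `2 k`, there is at most one path of each length
`j ≤ k` between two vertices, so there are at most `4 ^ k (k + 1) ^ 2 Δ ^ k = O(n)` closed walks of
length `2 k` from each vertex. Hence the adjacency matrix `A` has only `S = O(η ^ (- 2 k))`
eigenvalues of absolute value at least `η n ^ (1 / k)`, and the entries of their eigenvectors are at
most `√(S / n)`. Divide `U` into cells by rounding these eigenvectors, and let `E` be the average over
the cells. Then `A` and `E A E` differ by `O(η n ^ (1 / k))` in the operator norm, so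
`∑ A x y ⟨u x, v y⟩` changes by `O(η n ^ (1 + 1 / k))` if `A` is replaced by `E A E`. But the first
sum is at least `a` times the sum of the entries, and the second one is at most `b` times this sum
plus a small error, since the entries of `E A E` are not negative and small on the average, and
therefore hardly charge the adjacent pairs, if the number of cells is small compared to `n ^ (1 / 2)`.
-/

set_option autoImplicit false

namespace Pool.Agent.Results.MP_97687e_co.MarginComplexity

open Pool.Agent.N471.CC

theorem result :
    -- (1) margins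
    (∀ (k : ℕ) (c : ℝ), 2 ≤ k → 0 < c → ∃ C : ℝ,
      ∀ (V : Type) [Fintype V] (H : Type) [NormedAddCommGroup H] [InnerProductSpace ℝ H]
        (G : SimpleGraph V) (u v : V → H) (a b : ℝ), -1 ≤ b → b < a → a ≤ 1 →
        ((2 * k : ℕ) : ℕ∞) < G.egirth →
        c * (Fintype.card V : ℝ) ^ (1 + 1 / (k : ℝ)) ≤ Nat.card G.edgeSet →
        (∀ x, ‖u x‖ ≤ 1) → (∀ x, ‖v x‖ ≤ 1) →
        (∀ x y, G.Adj x y → a ≤ inner ℝ (u x) (v y)) →
        (∀ x y, x ≠ y → ¬ G.Adj x y → inner ℝ (u x) (v y) ≤ b) →
        (a - b) ^ (2 * k + 1) * Real.log (Fintype.card V) ≤ C) ∧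
    -- (2) randomised communication
    (∀ (k : ℕ) (c₀ : ℝ), 2 ≤ k → 0 < c₀ → ∃ C : ℝ,
      ∀ (V : Type) [Fintype V] (G : SimpleGraph V) (c : ℕ), ((2 * k : ℕ) : ℕ∞) < G.egirth →
        c₀ * (Fintype.card V : ℝ) ^ (1 + 1 / (k : ℝ)) ≤ Nat.card G.edgeSet → Decides G c →
        Real.log (Fintype.card V) ≤ C * 2 ^ ((2 * k + 1) * c)) := by
  refine ⟨fun k c hk hc => ?_, fun k c₀ hk hc => ?_⟩
  · obtain ⟨C, -, h⟩ := Pool.Agent.N472.MC.margin k hk c hc
    exact ⟨C, h⟩
  · obtain ⟨C, -, h⟩ := Pool.Agent.N472.MC.protocols k hk c₀ hc
    exact ⟨C, h⟩

end Pool.Agent.Results.MP_97687e_co.MarginComplexity
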