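import Pool.Agent.N721.SR.Cut
import Pool.Agent.N721.SR.Vec

/-!
# Graphs of girth greater than `2 k`: regular partitions in operator norm

For all `k` and `η > 0` there is `K` such that every graph `G` with `n` vertices and girth greater
than `2 k`, for every `n`, has
* a set `H` of vertices of degree sum at most `η n ^ (1 + 1 / k)` and a partition into at most `K`
  cells such that the adjacency matrix of `G` without the edges at `H` differs from its average
  over the blocks of the partition by a matrix of `l ^ 2` operator norm at most `η n ^ (1 / k)`;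
* a partition into at most `K` cells such that the numbers `e (S, T)` of edges of `G` itself are
  given by the block densities up to `η n ^ (1 + 1 / k)`, for all sets `S` and `T` of vertices.
If all degrees of `G` are at most `b n ^ (1 / k)`, then `H` can be taken to be empty (with `K`
depending on `b`); moreover at most `C (2 k, k) b ^ k / t ^ (2 k)` eigenvalues of `G` have absolute
value at least `t n ^ (1 / k)`, and each eigenvector `f` of such an eigenvalue satisfies
`f (v) ^ 2 ≤ C (2 k, k) b ^ k t ^ (- 2 k) |f| ^ 2 / n`.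

No assumption on the densities of subgraphs (absence of dense spots, `L ^ p` upper regularity) is
made; the graphs considered have at most `O(n ^ (1 + 1 / k))` edges.

Proof. The closed walks of length `2 k` at a vertex are degenerate, so there are at most
`C (2 k, k) D ^ k` of them if all degrees are at most `D`. This bounds the number of large
eigenvalues by the trace, and the eigenvectors in the sup norm. Partition the vertices according to
the approximate values of the eigenvectors of the large eigenvalues.
-/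

set_option autoImplicit false

namespace Pool.Agent.Results.MP_97687e_co.SpectralRegularity

open Finset Pool.TH815.GR Pool.Agent.N721.SR

variable {V : Type} [Fintype V] [DecidableEq V]

/-- The average of the matrix `A` over the block of the pair `(u, v)`, for the partition of the
index set into the fibres of `P`. -/
noncomputable def blockAvg {K : ℕ} (A : Matrix V V ℝ) (P : V → Fin K) (u v : V) : ℝ :=
  (∑ x ∈ univ.filter (fun x => P x = P u), ∑ y ∈ univ.filter (fun y => P y = P v), A x y) /
    ((#(univ.filter fun x => P x = P u) : ℝ) * (#(univ.filter fun y => P y = P v) : ℝ))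

/-- The operator norm of the difference of `A` and its block average is at most `δ`. -/
def RegularPartition {K : ℕ} (A : Matrix V V ℝ) (P : V → Fin K) (δ : ℝ) : Prop :=
  ∀ f g : V → ℝ, |∑ u, ∑ v, (A u v - blockAvg A P u v) * f u * g v| ≤
    δ * Real.sqrt (∑ u, f u ^ 2) * Real.sqrt (∑ v, g v ^ 2)

/-- The adjacency matrix of `G` without the edges at the vertices of `H`. -/
def adjOutside (G : SimpleGraph V) [DecidableRel G.Adj] (H : Finset V) : Matrix V V ℝ :=
  fun x y => if G.Adj x y ∧ x ∉ H ∧ y ∉ H then 1 else 0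

theorem result :
    -- (1) regular partitions of all graphs of girth greater than `2 k`
    (∀ (k : ℕ) (η : ℝ), 1 ≤ k → 0 < η → ∃ K : ℕ, ∀ (V : Type) [Fintype V] [DecidableEq V]
      (G : SimpleGraph V) [DecidableRel G.Adj], ((2 * k : ℕ) : ℕ∞) < G.egirth →
        (∃ (H : Finset V) (P : V → Fin K),
          ∑ x ∈ H, (G.degree x : ℝ) ≤ η * (Fintype.card V : ℝ) ^ (1 + 1 / (k : ℝ)) ∧
          RegularPartition (adjOutside G H) P (η * (Fintype.card V : ℝ) ^ (1 / (k : ℝ)))) ∧
        ∃ P : V → Fin K, ∀ S T : Finset V,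
          |∑ x ∈ S, ∑ y ∈ T, (G.adjMatrix ℝ x y - blockAvg (G.adjMatrix ℝ) P x y)| ≤
            η * (Fintype.card V : ℝ) ^ (1 + 1 / (k : ℝ))) ∧
    ∀ (k : ℕ) (b : ℝ), 1 ≤ k → 0 ≤ b →
      -- (2) regular partitions of graphs with maximum degree at most `b n ^ (1 / k)`
      (∀ η : ℝ, 0 < η → ∃ K : ℕ, ∀ (V : Type) [Fintype V] [DecidableEq V]
        (G : SimpleGraph V) [DecidableRel G.Adj], ((2 * k : ℕ) : ℕ∞) < G.egirth →
        (∀ v, (G.degree v : ℝ) ≤ b * (Fintype.card V : ℝ) ^ (1 / (k : ℝ))) →
        ∃ P : V → Fin K,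
          RegularPartition (G.adjMatrix ℝ) P (η * (Fintype.card V : ℝ) ^ (1 / (k : ℝ)))) ∧
      -- (3) their eigenvalues and eigenvectors
      ∀ (V : Type) [Fintype V] [DecidableEq V] (G : SimpleGraph V) [DecidableRel G.Adj],
        ((2 * k : ℕ) : ℕ∞) < G.egirth →
        (∀ v, (G.degree v : ℝ) ≤ b * (Fintype.card V : ℝ) ^ (1 / (k : ℝ))) →
        (∀ v, (G.adjMatrix ℝ ^ (2 * k)) v v ≤ ((2 * k).choose k : ℝ) * b ^ k * Fintype.card V) ∧
        ∀ t : ℝ, 0 < t →
          (∀ hA : (G.adjMatrix ℝ).IsHermitian,
            (#(univ.filter fun i => t * (Fintype.card V : ℝ) ^ (1 / (k : ℝ)) ≤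
              |hA.eigenvalues i|) : ℝ) * t ^ (2 * k) ≤ ((2 * k).choose k : ℝ) * b ^ k) ∧
          ∀ (f : V → ℝ) (l : ℝ), (∀ u, ∑ v, G.adjMatrix ℝ u v * f v = l * f u) →
            t * (Fintype.card V : ℝ) ^ (1 / (k : ℝ)) ≤ |l| → ∀ v,
            Fintype.card V * f v ^ 2 * t ^ (2 * k) ≤
              ((2 * k).choose k : ℝ) * b ^ k * ∑ u, f u ^ 2 := by
  refine ⟨fun k η hk hη => ?_, fun k b hk hb => ⟨fun η hη => ?_, fun V _ _ G _ hg hD => ?_⟩⟩
  · obtain ⟨K₁, h1⟩ := regular_girth k hk η hη
    obtain ⟨K₂, h2⟩ := cut_girth k hk η hη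
    refine ⟨max K₁ K₂, fun V _ _ G _ hg => ?_⟩
    rw [egirth_iff] at hg
    obtain ⟨H, P, hH, -, hP⟩ := h1 V G hg
    obtain ⟨P', hP'⟩ := h2 V G hg
    refine ⟨⟨H, fun x => Fin.castLE (le_max_left K₁ K₂) (P x), hH, ?_⟩,
      fun x => Fin.castLE (le_max_right K₁ K₂) (P' x), fun S T => ?_⟩
    · have e : adjOutside G H = (del G H).adjMatrix ℝ := by
        funext x y
        rw [adj_del]
        rfl
      rw [e]
      exact hP.comp _ (Fin.castLE_injective _)
    · have e : ∀ x y, blockAvg (G.adjMatrix ℝ)
          (fun x => Fin.castLE (le_max_right K₁ K₂) (P' x)) x y =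
          Pool.Agent.N721.SR.avg (G.adjMatrix ℝ) P' x y :=
        fun x y => avg_comp (G.adjMatrix ℝ) P' _ (Fin.castLE_injective _) x y
      simp only [e]
      exact hP' S T
  · obtain ⟨K, hK⟩ := regular_degree k hk b η hb hη
    refine ⟨K, fun V _ _ G _ hg hD => ?_⟩
    rw [egirth_iff] at hg
    exact hK V G hg hD
  · rw [egirth_iff] at hg
    exact eigen_stat G hk hg b hb hD

end Pool.Agent.Results.MP_97687e_co.SpectralRegularity
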